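import Mathlib
import Pool.Agent.H78.GeoNil

set_option autoImplicit false

namespace Pool.Agent.Results.MP_2dcdad_ag.TwoLimits

open MvPolynomial Pool.Agent.H78.GeoNil

/-- Over every finite field there is a polynomial self-map T of the affine plane with exactly two
geometric fixed points such that every geometric point of the line x = 0 reaches one of them,
and each of the two is reached by infinitely many points of the line. -/
theorem result (F : Type) [Field F] [Finite F] :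
    ∃ (T : Fin 2 → MvPolynomial (Fin 2) F)
      (t : (Fin 2 → AlgebraicClosure F) → (Fin 2 → AlgebraicClosure F))
      (P₁ P₂ : Fin 2 → AlgebraicClosure F),
      (∀ Q i, t Q i = aeval Q (T i)) ∧
      P₁ ≠ P₂ ∧ (∀ P, t P = P ↔ P = P₁ ∨ P = P₂) ∧
      (∀ Q, Q 0 = 0 → ∃ k, 1 ≤ k ∧ (t^[k] Q = P₁ ∨ t^[k] Q = P₂)) ∧
      {Q | Q 0 = 0 ∧ ∃ k, 1 ≤ k ∧ t^[k] Q = P₁}.Infinite ∧
      {Q | Q 0 = 0 ∧ ∃ k, 1 ≤ k ∧ t^[k] Q = P₂}.Infinite := by
  have hT : ∀ (Q : Fin 2 → AlgebraicClosure F) (i : Fin 2), t2 Q i =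
      aeval Q ((![X 0 + X 1, (X 0 + X 1) * (X 0 + X 1 - 1) * (X 1 + (X 0 + X 1) * (X 0 + X 1 - 1))]
        : Fin 2 → MvPolynomial (Fin 2) F) i) := by
    intro Q i; fin_cases i <;> simp [t2]
  refine ⟨_, t2, ![0, 0], ![1, 0], hT, by simp, t2_fixed, ?_,
    inf_of_late t2 _ ((t2_fixed _).2 (Or.inl rfl)) {Q | Q 0 = 0} t2_late0,
    inf_of_late t2 _ ((t2_fixed _).2 (Or.inr rfl)) {Q | Q 0 = 0} t2_late1⟩
  intro Q hQ
  obtain ⟨A, h1, h2, h3⟩ := fin_inv F
    ![X 0 + X 1, (X 0 + X 1) * (X 0 + X 1 - 1) * (X 1 + (X 0 + X 1) * (X 0 + X 1 - 1))] Q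
  obtain ⟨n, hn⟩ := hits t2 A {a | a 0 + a 1 = 0 ∨ a 0 + a 1 = 1} h1
    (fun a ha => by rw [funext (hT a)]; exact h3 a ha)
    (fun a b ha _ h => t2_inj a b (fun e => ha (Or.inl e)) (fun e => ha (Or.inr e)) h) Q h2
    (fun a ha h => ha (Or.inl ((congrFun h 0).trans hQ)))
  refine ⟨n + 1, by omega, ?_⟩
  rw [Function.iterate_succ_apply']
  rcases hn with hn | hn
  · left; ext i; fin_cases i <;> simp [t2, hn]
  · right; ext i; fin_cases i <;> simp [t2, hn]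

end Pool.Agent.Results.MP_2dcdad_ag.TwoLimits
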